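import Pool.Agent.TH229.Kan.WFinal

/-!
# Area of the random Julia sets of the holomorphic Kan skew product, base degree at least six
-/

set_option autoImplicit false

namespace Pool.Agent.Results.MP_ed045b_an.NonzeroExponent

open Filter Topology MeasureTheory

/-- The fibre map `f_u(z) = z + α cos(2πu) z (1 - z)`. -/
noncomputable def fibre (α : ℂ) (u : ℝ) (z : ℂ) : ℂ :=
  z + α * ((Real.cos (2 * Real.pi * u) : ℝ) : ℂ) * z * (1 - z)

/-- The fibre iterates `f_u^n`; the base map is `u ↦ L u` (the fibre maps are `1`-periodic in `u`,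
so no reduction mod `1` is needed). -/
noncomputable def orbit (L : ℕ) (α : ℂ) (u : ℝ) : ℕ → ℂ → ℂ
  | 0, z => z
  | n + 1, z => fibre α ((L : ℝ) ^ n * u) (orbit L α u n z)

/-- The chordal (spherical) distance on the plane. -/
noncomputable def chord (a b : ℂ) : ℝ :=
  2 * ‖a - b‖ / (Real.sqrt (1 + ‖a‖ ^ 2) * Real.sqrt (1 + ‖b‖ ^ 2))

/-- `z` is in the random Fatou set over `u`: on a neighbourhood of `z` every subsequence of the
fibre iterates has a further subsequence that is uniformly Cauchy in the spherical distance on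
compact sets. -/
def NormalAt (L : ℕ) (α : ℂ) (u : ℝ) (z : ℂ) : Prop :=
  ∃ U : Set ℂ, IsOpen U ∧ z ∈ U ∧
    ∀ φ : ℕ → ℕ, StrictMono φ → ∃ ψ : ℕ → ℕ, StrictMono ψ ∧
      ∀ K : Set ℂ, K ⊆ U → IsCompact K → ∀ ε : ℝ, 0 < ε →
        ∃ N : ℕ, ∀ m ≥ N, ∀ n ≥ N, ∀ w ∈ K,
          chord (orbit L α u (φ (ψ m)) w) (orbit L α u (φ (ψ n)) w) < ε

/-- The finite part of the random Julia set over `u`. -/
def julia (L : ℕ) (α : ℂ) (u : ℝ) : Set ℂ := {z | ¬ NormalAt L α u z}

/-- The exponent `∫ log |1 + α cos 2πu| du`, which is the fibre exponent at `0` and at `1`. -/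
noncomputable def exponent (α : ℂ) : ℝ :=
  ∫ u in (0 : ℝ)..1, Real.log ‖1 + α * ((Real.cos (2 * Real.pi * u) : ℝ) : ℂ)‖

open Pool.Agent.TH229.Kan

lemma orbit_eq (L : ℕ) (α : ℂ) (u : ℝ) (n : ℕ) (z : ℂ) : orbit L α u n z = Phi L α z n u := by
  induction n with
  | zero => rfl
  | succ n ih => rw [orbit, ih, Phi_succ, cc_cr, fibre, cr]

lemma normal_of {L : ℕ} {α : ℂ} {u : ℝ} {z : ℂ}
    (h : ∃ U : Set ℂ, IsOpen U ∧ z ∈ U ∧ ∀ ε : ℝ, 0 < ε → ∃ N, ∀ m ≥ N, ∀ n ≥ N, ∀ w ∈ U,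
      dd (Phi L α w m u) (Phi L α w n u) < ε) : NormalAt L α u z := by
  obtain ⟨U, hU1, hU2, hU3⟩ := h
  refine ⟨U, hU1, hU2, fun φ hφ => ⟨id, strictMono_id, fun K hK _ ε hε => ?_⟩⟩
  obtain ⟨N, hN⟩ := hU3 ε hε
  refine ⟨N, fun m hm n hn w hw => ?_⟩
  have h3 := hN (φ m) (hm.trans (hφ.id_le m)) (φ n) (hn.trans (hφ.id_le n)) w (hK hw)
  rw [orbit_eq, orbit_eq]
  exact h3

/-- For every degree `L ≥ 6` and every complex `α` with `0 < |α| < 1` and nonzero exponent, over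
almost every `u`: the random Julia set has zero area; almost every `z` is attracted by `0`, `1` or
`∞` if the exponent is negative, and by `∞` if it is positive. -/
theorem result : ∀ L : ℕ, 6 ≤ L → ∀ α : ℂ, 0 < ‖α‖ → ‖α‖ < 1 → exponent α ≠ 0 →
    ∀ᵐ u : ℝ, volume (julia L α u) = 0 ∧
      (exponent α < 0 → ∀ᵐ z : ℂ, Tendsto (fun n => orbit L α u n z) atTop (𝓝 0) ∨
        Tendsto (fun n => orbit L α u n z) atTop (𝓝 1) ∨
        Tendsto (fun n => ‖orbit L α u n z‖) atTop atTop) ∧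
      (0 < exponent α → ∀ᵐ z : ℂ, Tendsto (fun n => ‖orbit L α u n z‖) atTop atTop) := by
  intro L hL α hα0 hα hne
  rcases lt_or_gt_of_ne hne with h | h
  · have h0 : ∫ u in (0 : ℝ)..1, Real.log ‖1 + α * ((Real.cos (2 * Real.pi * u) : ℝ) : ℂ)‖ < 0 := h
    have h1 : ∫ u in (0 : ℝ)..1, Real.log ‖1 - α * ((Real.cos (2 * Real.pi * u) : ℝ) : ℂ)‖ < 0 := by
      rw [exponents_eq]; exact h
    obtain ⟨θ, hθ0, hθ, hGS⟩ := ae_GS (L := L) (by omega) hα h0 h1
    have hio := ae_KK (L := L) (by omega) hθ0 hGS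
    have hfub := ae_fubini (P := fun z u => Absorbed L α z u) (Absorbed_measurable L α)
      (Filter.Eventually.of_forall fun z => ae_absorbed hL hα0 hα h0 h1 z)
    filter_upwards [hio, hfub] with u ⟨i, hi⟩ hu2
    refine ⟨measure_mono_null ?_ hu2, fun _ => ?_, fun h2 => absurd h2 (not_lt.2 h.le)⟩
    · intro z hz habs
      exact hz (normal_of (local_cauchy hα0 hα hθ0 hθ hi habs))
    · rw [ae_iff]
      refine measure_mono_null ?_ hu2
      intro z hz habs
      apply hz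
      simp_rw [orbit_eq]
      exact habs
  · have h0 : 0 < ∫ u in (0 : ℝ)..1, Real.log ‖1 + α * ((Real.cos (2 * Real.pi * u) : ℝ) : ℂ)‖ := h
    have h1 : 0 < ∫ u in (0 : ℝ)..1, Real.log ‖1 - α * ((Real.cos (2 * Real.pi * u) : ℝ) : ℂ)‖ := by
      rw [exponents_eq]; exact h
    have hio := ae_GE_freq (L := L) (by omega)
    have hfub := ae_fubini (P := fun z u => Esc L α z u) (Esc_measurable L α) (by
      have hn : ∀ a : ℂ, ∀ᵐ z : ℂ, z ≠ a := fun a => by
        rw [ae_iff]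
        simp
      filter_upwards [hn 0, hn 1] with z hz0 hz1
      exact ae_esc hL hα0 hα hz0 hz1 h0 h1)
    filter_upwards [hio, hfub] with u ⟨i, hi⟩ hu2
    refine ⟨measure_mono_null ?_ hu2, fun h2 => absurd h2 (not_lt.2 h.le), fun _ => ?_⟩
    · intro z hz habs
      exact hz (normal_of (esc_cauchy hα0 hi habs))
    · rw [ae_iff]
      refine measure_mono_null ?_ hu2
      intro z hz habs
      apply hz
      simp_rw [orbit_eq]
      exact habs

end Pool.Agent.Results.MP_ed045b_an.NonzeroExponent
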